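import Mathlib

namespace Pool.Agent.Results.MP_93d976_co.Thin

abbrev Cube := ℕ × ℕ × ℕ

def box (k l m : ℕ) : Finset Cube := Finset.Icc 1 k ×ˢ Finset.Icc 1 l ×ˢ Finset.Icc 1 m

/-- The two cubes differ by 1 in exactly one coordinate. -/
def Nb (x y : Cube) : Prop := Nat.dist x.1 y.1 + Nat.dist x.2.1 y.2.1 + Nat.dist x.2.2 y.2.2 = 1

instance (x y : Cube) : Decidable (Nb x y) := by unfold Nb; infer_instance

def Move (P Q : Finset Cube) : Prop :=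
  ∃ x ∈ P, (P.filter (Nb x)).card = 3 ∧ Q = P.erase x

def HasSolution (k l m : ℕ) : Prop :=
  ∃ S, Relation.ReflTransGen Move (box k l m) S ∧ ∀ x ∈ S, ∀ y ∈ S, ¬ Nb x y

def ok : Finset Cube → List Cube → Prop
  | S, [] => ∀ x ∈ S, ∀ y ∈ S, ¬ Nb x y
  | P, x :: l => x ∈ P ∧ (P.filter (Nb x)).card = 3 ∧ ok (P.erase x) l

instance : ∀ P l, Decidable (ok P l)
  | S, [] => by unfold ok; infer_instance
  | P, x :: l => by
    unfold ok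
    haveI := instDecidableOk (P.erase x) l
    infer_instance

theorem sound : ∀ l P, ok P l →
    ∃ S, Relation.ReflTransGen Move P S ∧ ∀ x ∈ S, ∀ y ∈ S, ¬ Nb x y
  | [], P, h => ⟨P, .refl, h⟩
  | x :: l, _, h =>
    let ⟨S, h1, h2⟩ := sound l _ h.2.2
    ⟨S, .head ⟨x, h.1, h.2.1, rfl⟩ h1, h2⟩

def l1 : List Cube := [(2,3,9), (2,3,8), (2,3,7), (2,3,6), (2,3,5), (2,3,4), (2,3,3), (2,3,1), (2,1,1), (2,1,2), (1,3,4), (1,1,2), (2,1,3), (2,2,3), (2,2,2), (2,2,4), (2,2,5), (2,1,5), (1,1,5), (1,2,2), (1,2,1), (1,1,4), (1,2,3), (1,2,5), (1,3,2), (1,3,8), (1,1,6), (1,1,7), (2,1,7), (1,1,8), (1,2,8), (2,2,8), (2,1,9), (1,2,9), (2,2,6), (1,3,6), (1,2,7)]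

def l2 : List Cube := [(3,3,6), (3,3,5), (3,3,4), (3,3,3), (3,3,2), (1,3,1), (2,3,1), (1,1,1), (2,1,1), (2,3,2), (2,2,1), (3,2,1), (3,2,6), (3,2,5), (3,2,4), (3,2,3), (3,1,3), (3,1,2), (2,1,2), (2,2,2), (3,1,5), (1,1,6), (2,1,6), (2,1,3), (1,2,6), (1,1,5), (1,1,3), (1,2,5), (2,2,3), (1,2,3), (1,2,2), (1,2,4), (2,2,4), (2,1,4), (2,3,6), (1,3,5), (1,3,3), (2,3,4), (2,2,5)]

theorem result : HasSolution 2 3 9 ∧ HasSolution 3 3 6 ∧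
    ¬ (∀ k, 1 ≤ k → k ≠ 6 → ¬ HasSolution 2 3 k) ∧
    ¬ (∀ k, 1 ≤ k → Even k → k ≠ 4 → ¬ HasSolution 3 3 k) := by
  have h1 : HasSolution 2 3 9 := sound l1 _ (by decide +kernel)
  have h2 : HasSolution 3 3 6 := sound l2 _ (by decide +kernel)
  exact ⟨h1, h2, fun h => h 9 (by decide) (by decide) h1,
    fun h => h 6 (by decide) (by decide) (by decide) h2⟩

end Pool.Agent.Results.MP_93d976_co.Thin
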